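import Pool.Agent.Results.MP_07b2d0_nt.AlmostAllWeilRestrictions
import Pool.Agent.R559.NP.Rel

/-!
# A bound of Shafarevich type, linear in `g log N_S`, for all Weil restrictions of elliptic curves whose
# modular invariant is near a given point

Let `φ` be any map from the algebraic numbers to a metric space `X`, for example the inclusion in `ℂ` or in
`ℂ_p`, and `τ > 0`.

(1) There is an absolute constant `C` such that for every `δ ≥ 0`, for all `ξ ∈ X` outside a set of Hausdorff
dimension at most `(2 - δ / (2 (1 + δ))) / τ` and for ALL number fields `L`, all but finitely many `j ∈ L` with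
`dist (φ j) ξ ≤ κ H_L(j) ^ (-τ)` have the following property: for ALL elliptic curves `E` over `L` of invariant
`j` (all twists) and all `N` such that `E` has good reduction outside `N`, in particular whenever the Weil
restriction `A = Res_{L/ℚ} E` extends to an abelian scheme over `Spec ℤ[1 / N]`, one has
`h_F(A) ≤ ((1 + δ) / 12) n log N + C n`, where `n = [L : ℚ]` is the dimension of `A`.

(2) For all `ξ ∈ X` outside a set of dimension at most `3 / (2 τ)` there is `δ` such that for ALL number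
fields `L` and all `κ` there is `C'` with `h_F(A) ≤ ((1 + δ) / 12) n log N + C' n` for ALL Weil restrictions
`A = Res_{L/ℚ} E` of elliptic curves with an invariant `j` in `L` such that
`dist (φ j) ξ ≤ κ H_L(j) ^ (-τ)`, without exception; and so for all products of powers of such Weil restrictions.

`H_L` is the height relative to `L`. For `X = ℂ` and `τ > 3 / 4`, or for `X = ℝ`, real `j` and `τ > 3 / 2`, this
concerns almost every `ξ`, and for instance for `L = ℚ`, `X = ℝ` and `τ = 2`, `κ = 1` all the convergents `j` of the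
continued fraction of each real number `ξ` outside a set of dimension at most `3 / 4`.
-/

set_option autoImplicit false
set_option linter.unusedSectionVars false

namespace Pool.Agent.Results.MP_07b2d0_nt.InvariantsNearAPoint

open NumberField IsDedekindDomain Filter Topology
open AlmostAllWeilRestrictions (Bound Bad IsPeriod GoodOutside stableHeight)

/-- the stable height is at most the height of the invariant, up to a constant -/
theorem stable_le : ∃ c : ℝ, 0 ≤ c ∧ ∀ (L : Type) [Field L] [NumberField L] (j : L)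
    (τ : InfinitePlace L → UpperHalfPlane), IsPeriod j τ →
    stableHeight j τ ≤ (Height.logHeight₁ j + c * Module.finrank ℚ L) / 12 := by
  obtain ⟨c, hc0, hc⟩ := Pool.Agent.Y733.FF.arch_le
  refine ⟨c, hc0, fun L _ _ j τ hτ => ?_⟩
  have h2 := hc L j τ hτ
  have h4 : Pool.Agent.W223.AK.ht j =
      ∑ w : InfinitePlace L, (w.mult : ℝ) * Real.log (max (w j) 1) +
      ∑ᶠ v : HeightOneSpectrum (𝓞 L), Real.log (max (FinitePlace.mk v j) 1) := by
    rw [← Pool.Agent.TH876.FH.Hj_height, Pool.Agent.Y733.LS.logHeight_eq, Pool.Agent.Y733.LS.ht_eq_Sa]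
  have h7 : Height.logHeight₁ j = Pool.Agent.W223.AK.ht j := by
    rw [Pool.Agent.Y733.LS.logHeight_eq, Pool.Agent.Y733.LS.ht_eq_Sa]
  unfold stableHeight
  rw [h7, h4]
  have e : ∑ w : InfinitePlace L, (w.mult : ℝ) * AlmostAllWeilRestrictions.arch (τ w) =
      ∑ w : InfinitePlace L, (w.mult : ℝ) * Pool.Agent.TH876.FH.arch (τ w) := rfl
  rw [e]
  apply div_le_div_of_nonneg_right _ (by norm_num)
  linarith

theorem bound_mono {δ C C' : ℝ} {L : Type} [Field L] [NumberField L] {j : L} (hC : C ≤ C')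
    (h : Bound δ C j) : Bound δ C' j := by
  intro E τ N hN hE hj hτ hg
  have h1 := h E τ N hN hE hj hτ hg
  have h2 : C * Module.finrank ℚ L ≤ C' * Module.finrank ℚ L :=
    mul_le_mul_of_nonneg_right hC (Nat.cast_nonneg _)
  linarith

/-- the first part for one `δ` -/
theorem part_one : ∃ C : ℝ, 0 < C ∧ ∀ (X : Type) [MetricSpace X] (φ : AlgebraicClosure ℚ → X) (δ τ : ℝ),
    0 ≤ δ → 0 < τ →
    ∃ E : Set X, dimH E ≤ ENNReal.ofReal ((2 - δ / (2 * (1 + δ))) / τ) ∧ ∀ ξ : X, ξ ∉ E →
      ∀ (L : IntermediateField ℚ (AlgebraicClosure ℚ)) [NumberField L] (κ : ℝ),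
        {j : L | dist (φ j) ξ ≤ κ * Height.mulHeight₁ j ^ (-τ) ∧ ¬ Bound δ C j}.Finite := by
  obtain ⟨C, hC, h1, -, -⟩ := AlmostAllWeilRestrictions.result.1
  refine ⟨C, hC, fun X _ φ δ τ hδ hτ => ?_⟩
  have hs : 0 ≤ 2 - δ / (2 * (1 + δ)) := by
    have h1 : δ / (2 * (1 + δ)) ≤ 2 := by
      rw [div_le_iff₀ (by linarith)]
      linarith
    linarith
  obtain ⟨E, hE, hE'⟩ := Pool.Agent.R559.NP.near_fields (X := X)
    (fun L _ j => ¬ Bound δ C j) (s := 2 - δ / (2 * (1 + δ))) (τ := τ) hs hτ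
    (by
      intro L _ ε hε
      obtain ⟨M, hM, h⟩ := h1 δ ε hδ hε
      refine ⟨M, hM, fun B hB => ?_⟩
      obtain ⟨h1, h2, -⟩ := h L B hB
      have hset : {j : L | ¬ Bound δ C j ∧
          Height.logHeight₁ j ≤ Module.finrank ℚ L * Real.log B} = Bad L δ C B := by
        ext j
        simp only [Bad, AlmostAllWeilRestrictions.Inv, Set.mem_ofPred_eq]
        tauto
      rw [hset]
      exact ⟨h1.subset fun j hj => hj.1, h2⟩) φ
  exact ⟨E, hE, fun ξ hξ L _ κ => hE' ξ hξ L κ⟩

/-- finitely many exceptions can be covered by the constant -/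
theorem absorb {δ C : ℝ} (hδ : 0 ≤ δ) {L : Type} [Field L] [NumberField L] {P : L → Prop}
    (h : {j : L | P j ∧ ¬ Bound δ C j}.Finite) : ∃ C' : ℝ, C ≤ C' ∧ ∀ j : L, P j → Bound δ C' j := by
  obtain ⟨c, hc0, hc⟩ := stable_le
  have hn : (1 : ℝ) ≤ Module.finrank ℚ L := by
    exact_mod_cast (Module.finrank_pos : 0 < Module.finrank ℚ L)
  have hpos : ∀ j : L, 0 ≤ (|Height.logHeight₁ j| + c * Module.finrank ℚ L) / 12 := fun j => by
    have : 0 ≤ c * Module.finrank ℚ L := mul_nonneg hc0 (by linarith)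
    positivity
  have hsum : 0 ≤ ∑ j ∈ h.toFinset, (|Height.logHeight₁ j| + c * Module.finrank ℚ L) / 12 :=
    Finset.sum_nonneg fun j _ => hpos j
  refine ⟨|C| + ∑ j ∈ h.toFinset, (|Height.logHeight₁ j| + c * Module.finrank ℚ L) / 12,
    by linarith [le_abs_self C], fun j hj => ?_⟩
  by_cases hb : Bound δ C j
  · exact bound_mono (by linarith [le_abs_self C]) hb
  · intro E τ N hN hE hj' hτ hg
    have h1 := hc L j τ hτ
    have h2 : (|Height.logHeight₁ j| + c * Module.finrank ℚ L) / 12 ≤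
        ∑ j ∈ h.toFinset, (|Height.logHeight₁ j| + c * Module.finrank ℚ L) / 12 :=
      Finset.single_le_sum (f := fun j : L => (|Height.logHeight₁ j| + c * Module.finrank ℚ L) / 12)
        (fun i _ => hpos i) (h.mem_toFinset.2 ⟨hj, hb⟩)
    have h3 : 0 ≤ (1 + δ) / 12 * Module.finrank ℚ L * Real.log N :=
      mul_nonneg (mul_nonneg (by linarith) (by linarith)) (Real.log_natCast_nonneg N)
    set S := ∑ j ∈ h.toFinset, (|Height.logHeight₁ j| + c * Module.finrank ℚ L) / 12 with hS
    have h4 : |C| + S ≤ (|C| + S) * Module.finrank ℚ L := by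
      have h5 : 0 ≤ |C| + S := by positivity
      nlinarith
    have h6 := le_abs_self (Height.logHeight₁ j)
    have h7 := abs_nonneg C
    have h8 : (Height.logHeight₁ j + c * Module.finrank ℚ L) / 12 ≤
        (|Height.logHeight₁ j| + c * Module.finrank ℚ L) / 12 := by
      apply div_le_div_of_nonneg_right _ (by norm_num)
      linarith
    linarith

/-- **Theorem.** (1) There is an absolute constant `C > 0` with the following property. Let `φ` be a map from the
algebraic numbers to a metric space `X`, `δ ≥ 0` and `τ > 0`. There is `E ⊆ X` of Hausdorff dimension at most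
`(2 - δ / (2 (1 + δ))) / τ` such that for all `ξ ∈ X` outside `E`, all number fields `L` inside the algebraic numbers and
all `κ` all but finitely many `j ∈ L` with `dist (φ j) ξ ≤ κ H_L(j) ^ (-τ)`, `H_L` the height relative to `L`, satisfy
`Bound δ C j`: `h_F(A) ≤ ((1 + δ) / 12) n log N + C n` for the Weil restrictions `A = Res_{L/ℚ} E`, `n = [L : ℚ] = dim A`,
with good reduction outside `N` of all elliptic curves `E` over `L` of invariant `j`.
(2) There is `E ⊆ X` of Hausdorff dimension at most `3 / (2 τ)` such that for all `ξ ∈ X` outside `E` there is `δ ≥ 0` such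
that for all finite families of number fields `L_i` and all `κ` there is `C'` such that for ALL `j_i ∈ L_i` with
`dist (φ j_i) ξ ≤ κ H(j_i) ^ (-τ)`: `h_F(A) ≤ ((1 + δ) / 12) g log N + C' g` for all products
`A = ∏ (Res_{L_i/ℚ} E_i) ^ (m_i)`, `g = dim A`, with good reduction outside `N`, of elliptic curves `E_i` of invariant `j_i`. -/
theorem result :
    (∃ C : ℝ, 0 < C ∧ ∀ (X : Type) [MetricSpace X] (φ : AlgebraicClosure ℚ → X) (δ τ : ℝ),
      0 ≤ δ → 0 < τ →
      ∃ E : Set X, dimH E ≤ ENNReal.ofReal ((2 - δ / (2 * (1 + δ))) / τ) ∧ ∀ ξ : X, ξ ∉ E →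
        ∀ (L : IntermediateField ℚ (AlgebraicClosure ℚ)) [NumberField L] (κ : ℝ),
          {j : L | dist (φ j) ξ ≤ κ * Height.mulHeight₁ j ^ (-τ) ∧ ¬ Bound δ C j}.Finite) ∧
    (∀ (X : Type) [MetricSpace X] (φ : AlgebraicClosure ℚ → X) (τ : ℝ), 0 < τ →
      ∃ E : Set X, dimH E ≤ ENNReal.ofReal (3 / (2 * τ)) ∧ ∀ ξ : X, ξ ∉ E → ∃ δ : ℝ, 0 ≤ δ ∧
        ∀ (r : ℕ) (L : Fin r → IntermediateField ℚ (AlgebraicClosure ℚ)) [∀ i, NumberField (L i)] (κ : ℝ),
          ∃ C' : ℝ, ∀ j : ∀ i, L i, (∀ i, dist (φ (j i)) ξ ≤ κ * Height.mulHeight₁ (j i) ^ (-τ)) →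
            ∀ (E : ∀ i, WeierstrassCurve (L i)) (τ : ∀ i, InfinitePlace (L i) → UpperHalfPlane)
              (m : Fin r → ℕ) (N : ℕ), N ≠ 0 →
              (∀ i, (E i).Δ ≠ 0 ∧ (E i).c₄ ^ 3 / (E i).Δ = j i ∧ IsPeriod (j i) (τ i) ∧ GoodOutside N (E i)) →
              ∑ i, (m i : ℝ) * stableHeight (j i) (τ i) ≤
                (1 + δ) / 12 * (∑ i, m i * Module.finrank ℚ (L i) : ℕ) * Real.log N +
                  C' * (∑ i, m i * Module.finrank ℚ (L i) : ℕ)) := by
  refine ⟨part_one, ?_⟩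
  obtain ⟨C, hC, h1⟩ := part_one
  intro X _ φ τ hτ
  have hk : ∀ k : ℕ, ∃ E : Set X,
      dimH E ≤ ENNReal.ofReal ((2 - (k : ℝ) / (2 * (1 + k))) / τ) ∧ ∀ ξ : X, ξ ∉ E →
      ∀ (L : IntermediateField ℚ (AlgebraicClosure ℚ)) [NumberField L] (κ : ℝ),
        {j : L | dist (φ j) ξ ≤ κ * Height.mulHeight₁ j ^ (-τ) ∧ ¬ Bound (k : ℝ) C j}.Finite :=
    fun k => h1 X φ k τ (Nat.cast_nonneg k) hτ
  choose F hF1 hF2 using hk
  refine ⟨⋂ k, F k, ?_, fun ξ hξ => ?_⟩
  · have hlim : Tendsto (fun k : ℕ => ENNReal.ofReal ((2 - (k : ℝ) / (2 * (1 + k))) / τ)) atTop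
        (𝓝 (ENNReal.ofReal ((2 - 1 / 2) / τ))) := by
      apply ENNReal.tendsto_ofReal
      apply Tendsto.div_const
      apply Tendsto.const_sub
      have e : (fun k : ℕ => (k : ℝ) / (2 * (1 + k))) = fun k : ℕ => (1 - 1 / ((k : ℝ) + 1)) / 2 := by
        funext k
        have hk : (0 : ℝ) < (k : ℝ) + 1 := by positivity
        have hk' : (1 + (k : ℝ)) ≠ 0 := by positivity
        field_simp
        ring
      rw [e]
      have h2 := ((tendsto_one_div_add_atTop_nhds_zero_nat (𝕜 := ℝ)).const_sub 1).div_const 2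
      simpa using h2
    have e : ENNReal.ofReal (3 / (2 * τ)) = ENNReal.ofReal ((2 - 1 / 2) / τ) := by
      congr 1
      field_simp
      norm_num
    rw [e]
    exact ge_of_tendsto' hlim fun k => (dimH_mono (Set.iInter_subset _ k)).trans (hF1 k)
  · rw [Set.mem_iInter] at hξ
    push Not at hξ
    obtain ⟨k, hk⟩ := hξ
    refine ⟨k, Nat.cast_nonneg k, fun r L _ κ => ?_⟩
    have hex : ∀ i : Fin r, ∃ C' : ℝ, C ≤ C' ∧ ∀ j : L i,
        dist (φ j) ξ ≤ κ * Height.mulHeight₁ j ^ (-τ) → Bound (k : ℝ) C' j := fun i =>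
      absorb (Nat.cast_nonneg k) (hF2 k ξ hk (L i) κ)
    choose C' hC1 hC2 using hex
    have hC0 : ∀ i, 0 ≤ C' i := fun i => hC.le.trans (hC1 i)
    refine ⟨∑ i, C' i, fun j hj E t m N hN h => ?_⟩
    refine AlmostAllWeilRestrictions.products (fun i => L i) j E t m N hN fun i => ?_
    obtain ⟨a1, a2, a3, a4⟩ := h i
    exact ⟨bound_mono (Finset.single_le_sum (fun i _ => hC0 i) (Finset.mem_univ i))
      (hC2 i (j i) (hj i)), a1, a2, a3, a4⟩

end Pool.Agent.Results.MP_07b2d0_nt.InvariantsNearAPoint
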