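import Mathlib
import Pool.Agent.N54.ML.Gen
import Pool.Agent.N141.TS.Frey

/-!
# An explicit bound of Shafarevich type, linear in `g log N_S`, for elliptic curves in families with several parameters, along almost
# all sequences of polynomial growth with real parameters: Weil restrictions of all twists from ALL number fields

Let `A` be an abelian scheme over `S = Spec ℤ[1 / N]` whose generic fibre is a Weil restriction `Res_{L/ℚ} E`, where `L` is ANY
number field and `E` is ANY elliptic curve over `L` of a given rational invariant `j` (all twists). As `A` has good reduction outside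
`N`, so has `E` (Néron-Ogg-Shafarevich; also `N_A = N(f_E) D_L ^ 2`, Milne). Here `h_F(Res_{L/ℚ} E) = n h_F(E)`, `n = [L : ℚ]`
(stable heights: over the algebraic closure it is the product of the conjugates of `E`), and `12 n h_F(E)` is the sum of
`log max(|j|_v, 1)` over the finite places `v` of `L` and of the archimedean terms.

Let `J = A / D` be a rational function over `ℚ` in `r` variables, for example the `j`-invariant of an elliptic curve over
`ℚ(t₁, …, t_r)`, whose reductions modulo the primes have many poles in the mean (`MeanPoles`); this is so for the universal family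
`y² = x³ + t₁ x + t₂`. Let `g_i(n)`, `i = 1, …, r`, be any real sequences with `g_i(n + 1) - g_i(n) ≥ n ^ (ρ - 1)` for large `n`, for
instance `n`, `n ²`, `n ² + n`, `√n`, `n log n`, the `n`-th prime, and let `c_i(n)` be any real sequences. For almost all real vectors
`ξ` the following holds if the integers `z_i(n) = ⌊ξ_i g_i(n) + c_i(n)⌋` grow at most polynomially (that is, if `g_i` and `c_i` do).
For all `J` and every `ε > 0` there is `κ` such that for all but `ε N` of the integers `n` in `(N, 2 N]`, `N` large, and for all but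
the proportion `ε` of the primes `n` in `(N, 2 N]`, the bound `h_F(A) ≤ κ [L : ℚ] log N_S + C [L : ℚ]`, `C` absolute, holds for the
Weil restrictions `A` of ALL elliptic curves of invariant `j = J (z_1(n), …, z_r(n))` over ALL number fields `L`, with good reduction
outside `N_S`. The same is true for almost all members of all families of twice continuously differentiable functions whose
derivatives are separated (`Spread`). Equal and integral exponents, such as `g_i(n) = n` for all `i`, are allowed. There is one null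
set of vectors `ξ` for all `J` and `ε`. The sequences are arbitrarily sparse in the space of all parameters; the starting results
`AlmostAllWeilRestrictions` and `ResidueVectors` contain none of them.

Proof. A second moment argument over the parameters (after helper668's one-dimensional metric theorem) shows that for almost all `ξ`
the integer vectors are jointly equidistributed modulo all `q ≤ N ^ δ` with a power saving, over the integers and over the primes
(`Pool.Agent.N54.ME`). By Turan's sieve with the primes `p` in `(N ^ (τ δ), N ^ δ]`, `τ` small, all but the proportion `ε` of the `n`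
have such a prime dividing `D` and not `A`; by the Schwartz-Zippel lemma `D ≠ 0` for almost all `n` (`Pool.Agent.N54.ML`). All
elliptic curves of invariant `j` over number fields have bad reduction at the primes above `p`, so `p` divides `N_S`, while the height
of `j` is `O(log N)`, hence `O(log p)`.
-/

set_option autoImplicit false
set_option linter.unusedSectionVars false

namespace Pool.Agent.Results.MP_07b2d0_nt.MetricSequences

open NumberField IsDedekindDomain

/-- the modular invariant `j(τ) = E₄(τ) ^ 3 / Δ(τ) = 1 / q + 744 + ⋯` -/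
noncomputable def jInv (τ : UpperHalfPlane) : ℂ :=
  ModularForm.E₄ τ ^ 3 / ModularForm.discriminant τ

/-- the archimedean term `- log (|Δ(τ)| (Im τ) ^ 6)` of the Faltings height -/
noncomputable def arch (τ : UpperHalfPlane) : ℝ :=
  -Real.log (‖ModularForm.discriminant τ‖ * τ.im ^ 6)

/-- the points `τ w` have modular invariant `j` -/
def IsPeriod {L : Type} [Field L] [NumberField L] (j : L)
    (τ : InfinitePlace L → UpperHalfPlane) : Prop := ∀ w, jInv (τ w) = w.embedding j

/-- the stable Faltings height of the Weil restriction `A = Res_{L/ℚ} E` of an elliptic curve `E`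
over `L` of invariant `j`, where the points `τ w` have invariant `j` (up to an absolute multiple of
`[L : ℚ] = dim A` which depends on the normalisation of the metric only): `12 h_F(A)` is the sum of
`log max(|j|_v, 1)` over the finite places `v` of `L`, the stable discriminant of `E`, and of the
archimedean terms -/
noncomputable def stableHeight {L : Type} [Field L] [NumberField L] (j : L)
    (τ : InfinitePlace L → UpperHalfPlane) : ℝ :=
  (∑ᶠ v : HeightOneSpectrum (𝓞 L), Real.log (max (FinitePlace.mk v j) 1) +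
    ∑ w : InfinitePlace L, (w.mult : ℝ) * arch (τ w)) / 12

/-- good reduction at `v`: some Weierstrass equation over `L` of the curve is integral at `v` and
has a discriminant which is a unit at `v` -/
def GoodAt {L : Type} [Field L] [NumberField L] (v : HeightOneSpectrum (𝓞 L))
    (E : WeierstrassCurve L) : Prop :=
  ∃ C : WeierstrassCurve.VariableChange L,
    v.valuation L (C • E).a₁ ≤ 1 ∧ v.valuation L (C • E).a₂ ≤ 1 ∧ v.valuation L (C • E).a₃ ≤ 1 ∧
    v.valuation L (C • E).a₄ ≤ 1 ∧ v.valuation L (C • E).a₆ ≤ 1 ∧ v.valuation L (C • E).Δ = 1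

/-- good reduction at all primes of `L` which do not divide `N` -/
def GoodOutside {L : Type} [Field L] [NumberField L] (N : ℕ) (E : WeierstrassCurve L) : Prop :=
  ∀ v : HeightOneSpectrum (𝓞 L), (N : 𝓞 L) ∉ v.asIdeal → GoodAt v E

/-- the bound, with parameters `κ` and `C`, for the Weil restrictions `A = Res_{L/ℚ} E` of all
elliptic curves `E` over `L` of invariant `j`: `h_F(A) ≤ κ n log N + C n`, where `n = [L : ℚ] = dim A`,
whenever `E` has good reduction outside `N`, in particular whenever `A` extends to an abelian scheme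
over `Spec ℤ[1 / N]` -/
def Bound (κ C : ℝ) {L : Type} [Field L] [NumberField L] (j : L) : Prop :=
  ∀ (E : WeierstrassCurve L) (τ : InfinitePlace L → UpperHalfPlane) (N : ℕ), N ≠ 0 → E.Δ ≠ 0 →
    E.c₄ ^ 3 / E.Δ = j → IsPeriod j τ → GoodOutside N E →
    stableHeight j τ ≤ κ * Module.finrank ℚ L * Real.log N + C * Module.finrank ℚ L

open MvPolynomial

/-- the sum over the primes `y < p ≤ x` of the proportion of the vectors modulo `p` that are zeros of
`D` but not of `A` is at least `δ (log log x - log log y) - C` -/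
def MeanPoles {r : ℕ} (A D : MvPolynomial (Fin r) ℤ) : Prop :=
  ∃ δ C : ℝ, 0 < δ ∧ ∀ y x : ℕ, 3 ≤ y → y ≤ x →
    δ * (Real.log (Real.log x) - Real.log (Real.log y)) - C ≤
      ∑ p ∈ (Finset.Ioc y x).filter Nat.Prime,
        ({ρ : Fin r → ZMod p | aeval ρ D = 0 ∧ aeval ρ A ≠ 0}.ncard : ℝ) / (p : ℝ) ^ r

/-- The derivatives of the consecutive functions `F n` are separated on `[u, v]` and their second derivatives increase. -/
def Spread (ρ u v : ℝ) (F : ℕ → ℝ → ℝ) : Prop :=
  (∀ n, ContDiff ℝ 2 (F n)) ∧ ∃ n₀ : ℕ, ∀ n, n₀ ≤ n → ∀ x ∈ Set.Icc u v,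
    (n : ℝ) ^ (ρ - 1) ≤ deriv (F (n + 1)) x - deriv (F n) x ∧
      deriv (deriv (F n)) x ≤ deriv (deriv (F (n + 1))) x

/-- `v` is not a pole of `A / D`, and the bound holds at `(A / D) (v)` over all number fields -/
def Holds (κ C : ℝ) {r : ℕ} (A D : MvPolynomial (Fin r) ℤ) (v : Fin r → ℤ) : Prop :=
  eval v D ≠ 0 ∧ ∀ (L : Type) [Field L] [NumberField L],
    Bound κ C (((eval v A : ℤ) : L) / ((eval v D : ℤ) : L))

/-- If the integer vectors `z n` grow at most polynomially, then for all `A`, `D` with many poles in the mean and all `ε > 0` there are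
`κ > 0` and `N₀` such that for all `N ≥ N₀` the bound, with `κ` and `C`, holds at `(A / D) (z n)`, over all number fields, for all but
`ε N` of the integers `n` in `(N, 2 N]` and for all but the proportion `ε` of the primes `n` in `(N, 2 N]`. -/
def AlmostAll (C : ℝ) {r : ℕ} (z : ℕ → Fin r → ℤ) : Prop :=
  (∃ (C' : ℝ) (m : ℕ), ∀ᶠ n : ℕ in Filter.atTop, ∀ i, |(z n i : ℝ)| ≤ C' * (n : ℝ) ^ m) →
    ∀ A D : MvPolynomial (Fin r) ℤ, D ≠ 0 → MeanPoles A D → ∀ ε : ℝ, 0 < ε → ∃ (κ : ℝ) (N₀ : ℕ), 0 < κ ∧
        ∀ N : ℕ, N₀ ≤ N →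
          ({n : ℕ | n ∈ Finset.Ioc N (2 * N) ∧ ¬ Holds κ C A D (z n)}.ncard : ℝ) ≤ ε * N ∧
          ({n : ℕ | n ∈ (Finset.Ioc N (2 * N)).filter Nat.Prime ∧ ¬ Holds κ C A D (z n)}.ncard : ℝ) ≤
            ε * ((Finset.Ioc N (2 * N)).filter Nat.Prime).card

section Aux

open Pool.Agent.Y733.UD Pool.Agent.Y733.LS Pool.Agent.W223.AK Pool.Agent.H691R3
  Pool.Agent.Y733.FF Pool.Agent.N141.TS Height

/-- the bound from a large pole -/
theorem bound_of : ∃ C : ℝ, 0 < C ∧ ∀ (σ : ℝ), 0 ≤ σ → ∀ x y : ℤ, Big σ x y →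
    ∀ (L : Type) [Field L] [NumberField L], Bound (σ / 12) C ((x : L) / y) := by
  obtain ⟨c, hc0, hc⟩ := arch_le
  refine ⟨(c + 1) / 12, by positivity, fun σ hσ x y hb L _ _ => ?_⟩
  intro E τ N hN hE hj hτ hg
  obtain ⟨hy0, p, hp, hpy, hpx, H, -, hxH, hyH, hle⟩ := hb
  have hx0 : x ≠ 0 := by
    rintro rfl
    exact hpx (dvd_zero _)
  have hτ' : Pool.Agent.TH876.FH.IsPeriod ((x : L) / y) τ := hτ
  have h2 := hc L _ τ hτ'
  have h4 : ht ((x : L) / y) =
      ∑ w : InfinitePlace L, (w.mult : ℝ) * Real.log (max (w ((x : L) / y)) 1) +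
      ∑ᶠ v : HeightOneSpectrum (𝓞 L), Real.log (max (FinitePlace.mk v ((x : L) / y)) 1) := by
    rw [← Pool.Agent.TH876.FH.Hj_height, logHeight_eq, ht_eq_Sa]
  have h6 : ht ((x : L) / y) ≤ Module.finrank ℚ L * (σ * Real.log p) := by
    have h7 : logHeight₁ ((x : L) / y) = ht ((x : L) / y) := by
      rw [logHeight_eq, ht_eq_Sa]
    rw [← h7]
    exact (ht_le L hx0 hy0 hxH hyH).trans (mul_le_mul_of_nonneg_left hle (Nat.cast_nonneg _))
  -- the prime `p` divides `N`
  have hpN : p ∣ N := by
    obtain ⟨v, hv⟩ := exists_above L hp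
    have hbad : ¬ Pool.Agent.TH876.FH.GoodAt v E := by
      intro hg'
      have h1 := good_int v E hE hg'
      rw [hj, fv_le_one_iff, map_div₀, val_int hp hv hpx] at h1
      have h2 := val_lt hv hpy
      have h3 : v.valuation L (y : L) ≠ 0 := (v.valuation L).ne_zero_iff.2 (by exact_mod_cast hy0)
      have h4 : (1 : WithZero (Multiplicative ℤ)) ≤ v.valuation L (y : L) := by
        rw [div_le_iff₀ (zero_lt_iff.2 h3), one_mul] at h1
        exact h1
      exact absurd h2 (not_lt.2 h4)
    have hmem : (N : 𝓞 L) ∈ v.asIdeal := by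
      by_contra hcon
      exact hbad (hg v hcon)
    by_contra hcon
    have h1 : ¬ (p : ℤ) ∣ (N : ℤ) := by exact_mod_cast hcon
    have h2 := not_mem_of hp hv h1
    rw [Int.cast_natCast] at h2
    exact h2 hmem
  have hlog : Real.log p ≤ Real.log N :=
    Real.log_le_log (by exact_mod_cast hp.pos)
      (by exact_mod_cast Nat.le_of_dvd (Nat.pos_of_ne_zero hN) hpN)
  have hn : (0 : ℝ) ≤ Module.finrank ℚ L := Nat.cast_nonneg _
  have h8 : (Module.finrank ℚ L : ℝ) * (σ * Real.log p) ≤
      Module.finrank ℚ L * (σ * Real.log N) :=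
    mul_le_mul_of_nonneg_left (mul_le_mul_of_nonneg_left hlog hσ) hn
  unfold stableHeight
  have e : ∑ w : InfinitePlace L, (w.mult : ℝ) * arch (τ w) =
      ∑ w : InfinitePlace L, (w.mult : ℝ) * Pool.Agent.TH876.FH.arch (τ w) := rfl
  rw [e, div_le_iff₀ (by norm_num)]
  have e2 : (σ / 12 * Module.finrank ℚ L * Real.log N + (c + 1) / 12 * Module.finrank ℚ L) * 12 =
      Module.finrank ℚ L * (σ * Real.log N) + c * Module.finrank ℚ L + Module.finrank ℚ L := by
    ring
  rw [e2]
  linarith

end Aux

theorem core : ∃ C : ℝ, 0 < C ∧ ∀ (r : ℕ) (κ₁ : ℝ), 0 < κ₁ → ∀ z : ℕ → Fin r → ℤ,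
    Pool.Agent.N54.ME.WS z κ₁ → AlmostAll C z := by
  obtain ⟨C, hC, hb⟩ := bound_of
  refine ⟨C, hC, fun r κ₁ hκ₁ z hz hg A D hD hM ε hε => ?_⟩
  obtain ⟨σ, hσ, N₀, hN₀⟩ := Pool.Agent.N54.ML.thin hD hM hκ₁ hz hg ε hε
  have key : ∀ v : Fin r → ℤ, Pool.Agent.N141.TS.Big σ (eval v A) (eval v D) →
      Holds ((σ + 1) / 12) C A D v := by
    intro v hv
    refine ⟨hv.1, fun L _ _ E τ N hN hE hj hτ hg => ?_⟩
    refine (hb σ hσ _ _ hv L E τ N hN hE hj hτ hg).trans ?_
    have h1 : 0 ≤ (Module.finrank ℚ L : ℝ) * Real.log N :=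
      mul_nonneg (Nat.cast_nonneg _) (Real.log_natCast_nonneg _)
    nlinarith
  refine ⟨(σ + 1) / 12, N₀, by positivity, fun N hN => ?_⟩
  obtain ⟨k1, k2⟩ := hN₀ N hN
  rw [Nat.card_Ioc, show 2 * N - N = N by omega] at k1
  exact ⟨(Pool.Agent.N141.TS.ncard_mono fun n _ hn hb => hn (key _ hb)).trans k1,
    (Pool.Agent.N141.TS.ncard_mono fun n _ hn hb => hn (key _ hb)).trans k2⟩

/-- **Theorem.** There is an absolute constant `C` such that for `r ≥ 1` and `0 < ρ ≤ 1`: (1) For all families of functions with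
separated derivatives, `AlmostAll` holds for the integer parts of `F_i(n) (ξ_i)` for almost all `ξ`. (2) For all real sequences `g_i`
with `g_i(n + 1) - g_i(n) ≥ n ^ (ρ - 1)` for large `n` and all real sequences `c_i`, `AlmostAll` holds for the integer parts of
`ξ_i g_i(n) + c_i(n)` for almost all `ξ`. (3) The invariant `6912 t₁³ / (4 t₁³ + 27 t₂²)` of the universal family
`y² = x³ + t₁ x + t₂` has many poles in the mean. -/
theorem result :
    (∃ C : ℝ, 0 < C ∧ ∀ (r : ℕ) (ρ : ℝ), 0 < r → 0 < ρ → ρ ≤ 1 →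
      (∀ (u v : Fin r → ℝ) (F : Fin r → ℕ → ℝ → ℝ), (∀ i, Spread ρ (u i) (v i) (F i)) →
        ∀ᵐ ξ : Fin r → ℝ, (∀ i, ξ i ∈ Set.Ioc (u i) (v i)) → AlmostAll C (fun n i => ⌊F i n (ξ i)⌋)) ∧
      (∀ g c : Fin r → ℕ → ℝ, (∀ i, ∀ᶠ n : ℕ in Filter.atTop, (n : ℝ) ^ (ρ - 1) ≤ g i (n + 1) - g i n) →
        ∀ᵐ ξ : Fin r → ℝ, AlmostAll C (fun n i => ⌊ξ i * g i n + c i n⌋))) ∧
    MeanPoles (C 6912 * X 0 ^ 3 : MvPolynomial (Fin 2) ℤ) (C 4 * X 0 ^ 3 + C 27 * X 1 ^ 2) := by
  obtain ⟨C, hC, hcore⟩ := core
  refine ⟨⟨C, hC, fun r ρ hr hρ hρ1 => ?_⟩, Pool.Agent.N141.TS.mean_wei⟩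
  have : Nonempty (Fin r) := ⟨⟨0, hr⟩⟩
  obtain ⟨h1, h2, _⟩ := Pool.Agent.N54.ME.three (ι := Fin r) hρ hρ1 (AlmostAll C)
    fun z hz => hcore r _ (Pool.Agent.N54.ME.kap_pos hρ (Fintype.card (Fin r))) z hz
  exact ⟨h1, h2⟩

end Pool.Agent.Results.MP_07b2d0_nt.MetricSequences
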