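import Pool.Agent.N365.FH.B
import Pool.Agent.N365.FH.C
import Pool.Agent.Zk37.OP.Win
import Pool.Agent.Results.MP_07b2d0_nt.AlmostAllWeilRestrictions

/-!
# A bound of Shafarevich type, linear in `n log N_S`, for the Weil restrictions over ALL number fields of all but few
# members of every one-parameter family of elliptic curves, and its consequences for thin sets of members

Let `A` be an abelian scheme over `S = Spec ℤ[1 / N]` whose generic fibre is a Weil restriction `Res_{L/ℚ} E`, where `L` is ANY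
number field, `n = [L : ℚ] = dim A`, and `E` is ANY elliptic curve over `L` with invariant `J(t)` (all twists); then `E` has
good reduction outside `N`. Here `J = A / D` is any non-constant rational function over `ℚ`, of degree `d`, whose poles may have
any degree, for example the `j`-invariant of an elliptic curve over `ℚ(t)`.

(1) Let `ε > 0` and `κ = (16 (d + 1) / ε + 1) / 12`. All integers `|t| ≤ B` but `C B ^ ε` (if `D` is not constant), all rational
numbers `t` of height at most `B` but `C B ^ ε` if `J` has at least two poles on the projective line, and but `C B ^ (1 + ε)`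
in any case, have the property: `h_F(A) + c₀ n ≤ κ n log N` for all these `A`, all `L`, all `N`; `c₀` is an arbitrary real
number, there is no additive constant.

(2) Windows: let `f_n` be starshaped functions on `(a, ∞)` (`f_n > 0`, `f_n(x) / x` nondecreasing) of exponent of convergence at
most `τ`, and `θ < 1`. For all `x > a` outside a set of dimension at most `(ε + τ) / (1 - θ)` and all `c`, for all large `n`, ALL
integers `t` with `| |t| - f_n(x) | ≤ c f_n(x) ^ θ` have this property. For all `x > a` outside a set of dimension at most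
`τ / (1 - θ)` there is `κ` such that for all `c` there is `C` with `h_F(A) ≤ κ n log N + C n` for ALL `n` and ALL such integers
`t` which are no poles of `J`. If `v_n ≥ 1` and the series of `exp (-s v_n)` converges for all `s > 0`, then `f_n(x) = x ^ (v_n)`
is an example with `τ = 0`, so is the orbit `f_n(x) = g(g(⋯g(x)))` of a map `g` with `g(x) > x` and `g(x) / x` nondecreasing;
and the dilates `v_n x` have exponent `τ` if the sequence `v` has.

(3) Typical points: let `φ` be ANY map from the integers (from the rational numbers, if `J` has at least two poles) to a metric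
space `X`. For all `ξ ∈ X` outside a set of Hausdorff dimension ZERO and all `τ > 0` there is `κ` such that for all `A` there is
`C` with `h_F(A) ≤ κ n log N + C n` for ALL `t` with `dist (φ t) ξ ≤ A H(t) ^ (-τ)`, `t` no pole of `J`. For example this holds
for ALL rational numbers `t` with `|t - ξ| ≤ H(t) ^ (-τ)`, for all real `ξ` outside a set of dimension zero.

(4) The same bounds follow for all products of powers of such Weil restrictions, with different fields and curves.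

Proof. The theorem of `Pool.Agent.N365.HY.I` gives, outside the exceptional set, primes `p` with product at least
`B ^ (ε / 8)` which divide the denominator and not the numerator of `J(t)`. All curves `E` have bad reduction above them, so
they divide `N`, whereas `h_F(A) = O(n log B)`. (2) and (3) follow by the covering lemmas of `R482.ST.Star`, `R559.NP.Near`,
with exceptional dimensions `(ε + τ) / (1 - θ)`, `ε / τ`, and `ε → 0`.
-/

set_option autoImplicit false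
set_option linter.unusedSectionVars false

namespace Pool.Agent.Results.MP_07b2d0_nt.OneParameterFamilies

open NumberField IsDedekindDomain Polynomial
open AlmostAllWeilRestrictions (IsPeriod GoodOutside stableHeight)
open Pool.Agent.R482.ST (Starshaped Conv)

/-- `A / D` is a rational function of degree `d ≥ 1` in lowest terms -/
structure IsFunction (d : ℕ) (A D : ℤ[X]) : Prop where
  pos : 1 ≤ d
  deg_num : A.natDegree ≤ d
  deg_den : D.natDegree ≤ d
  deg : A.natDegree = d ∨ D.natDegree = d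
  coprime : IsCoprime (A.map (Int.castRingHom ℚ)) (D.map (Int.castRingHom ℚ))

/-- the number of the different poles on the projective line over `ℂ` of the function `A / D` of
degree `d`: the roots of `D`, and infinity if `deg D < d` -/
noncomputable def poleCount (d : ℕ) (D : ℤ[X]) : ℕ :=
  (D.map (Int.castRingHom ℂ)).roots.toFinset.card + if D.natDegree < d then 1 else 0

/-- the value of the polynomial `f` at the rational number `t` -/
noncomputable def value (f : ℤ[X]) (t : ℚ) : ℚ := f.eval₂ (Int.castRingHom ℚ) t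

/-- `h_F(A) + c₀ n ≤ κ n log N + C n` for the Weil restrictions `A = Res_{L/ℚ} E`, `n = [L : ℚ] = dim A`, of all elliptic
curves `E` of invariant `j` over all number fields `L`, whenever `E` has good reduction outside `N`, in particular
whenever `A` extends to an abelian scheme over `Spec ℤ[1 / N]` -/
def Shaf (κ C : ℝ) (j : ℚ) : Prop :=
  ∀ (L : Type) [Field L] [NumberField L] (E : WeierstrassCurve L) (τ : InfinitePlace L → UpperHalfPlane) (N : ℕ),
    N ≠ 0 → E.Δ ≠ 0 → E.c₄ ^ 3 / E.Δ = (j : L) → IsPeriod (j : L) τ → GoodOutside N E →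
    stableHeight (j : L) τ ≤ κ * Module.finrank ℚ L * Real.log N + C * Module.finrank ℚ L

/-- `t` is not a pole of `J = A / D` and the bound holds for the invariant `J(t)` -/
def HoldsAt (κ C : ℝ) (A D : ℤ[X]) (t : ℚ) : Prop :=
  value D t ≠ 0 ∧ Shaf κ C (value A t / value D t)

/-- `t` is a pole of `J = A / D`, or the bound holds for the invariant `J(t)` -/
def HoldsOrPole (κ C : ℝ) (A D : ℤ[X]) (t : ℚ) : Prop :=
  value D t ≠ 0 → Shaf κ C (value A t / value D t)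

/-- the height of a rational number -/
noncomputable def height (t : ℚ) : ℝ := max (|t.num| : ℝ) t.den

section Aux

open Pool.Agent.Y733.UD Pool.Agent.Y733.LS Pool.Agent.W223.AK Pool.Agent.H691R3
  Pool.Agent.Y733.FF Pool.Agent.N365.FH Height
open Pool.Agent.N365.HY (Many)

theorem sh_le : ∃ c : ℝ, 0 ≤ c ∧ ∀ (L : Type) [Field L] [NumberField L] (j : L)
    (τ : InfinitePlace L → UpperHalfPlane), IsPeriod j τ →
    stableHeight j τ ≤ (Height.logHeight₁ j + c * Module.finrank ℚ L) / 12 := by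
  obtain ⟨c, hc0, hc⟩ := Pool.Agent.Y733.FF.arch_le
  refine ⟨c, hc0, fun L _ _ j τ hτ => ?_⟩
  have h2 := hc L j τ hτ
  have h4 : Pool.Agent.W223.AK.ht j =
      ∑ w : InfinitePlace L, (w.mult : ℝ) * Real.log (max (w j) 1) +
      ∑ᶠ v : HeightOneSpectrum (𝓞 L), Real.log (max (FinitePlace.mk v j) 1) := by
    rw [← Pool.Agent.TH876.FH.Hj_height, Pool.Agent.Y733.LS.logHeight_eq, Pool.Agent.Y733.LS.ht_eq_Sa]
  have h7 : Height.logHeight₁ j = Pool.Agent.W223.AK.ht j := by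
    rw [Pool.Agent.Y733.LS.logHeight_eq, Pool.Agent.Y733.LS.ht_eq_Sa]
  unfold stableHeight
  rw [h7, h4]
  have e : ∑ w : InfinitePlace L, (w.mult : ℝ) * AlmostAllWeilRestrictions.arch (τ w) =
      ∑ w : InfinitePlace L, (w.mult : ℝ) * Pool.Agent.TH876.FH.arch (τ w) := rfl
  rw [e]
  apply div_le_div_of_nonneg_right _ (by norm_num)
  linarith

/-- a pole of the invariant divides `N` -/
theorem pole_dvd {L : Type} [Field L] [NumberField L] {E : WeierstrassCurve L} (hE : E.Δ ≠ 0) {x y : ℤ}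
    (hy0 : y ≠ 0) (hj : E.c₄ ^ 3 / E.Δ = (x : L) / y) {N : ℕ} (hg : GoodOutside N E) {p : ℕ}
    (hp : p.Prime) (hpy : (p : ℤ) ∣ y) (hpx : ¬ (p : ℤ) ∣ x) : p ∣ N := by
  obtain ⟨v, hv⟩ := exists_above L hp
  have hbad : ¬ Pool.Agent.TH876.FH.GoodAt v E := by
    intro hg'
    have h1 := good_int v E hE hg'
    rw [hj, fv_le_one_iff, map_div₀, val_int hp hv hpx] at h1
    have h2 := val_lt hv hpy
    have h3 : v.valuation L (y : L) ≠ 0 := (v.valuation L).ne_zero_iff.2 (by exact_mod_cast hy0)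
    have h4 : (1 : WithZero (Multiplicative ℤ)) ≤ v.valuation L (y : L) := by
      rw [div_le_iff₀ (zero_lt_iff.2 h3), one_mul] at h1
      exact h1
    exact absurd h2 (not_lt.2 h4)
  have hmem : (N : 𝓞 L) ∈ v.asIdeal := by
    by_contra hcon
    exact hbad (hg v hcon)
  by_contra hcon
  have h1 : ¬ (p : ℤ) ∣ (N : ℤ) := by exact_mod_cast hcon
  have h2 := not_mem_of hp hv h1
  rw [Int.cast_natCast] at h2
  exact h2 hmem

/-- the bound from many poles -/
theorem follows (d : ℕ) {ε : ℝ} (hε : 0 < ε) (c₀ : ℝ) :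
    Pool.Agent.N365.FH.Follows (ε / 8) (d + 1)
      (fun _ j => Shaf ((16 * (d + 1) / ε + 1) / 12) (-c₀) j) := by
  obtain ⟨c, hc0, hc⟩ := sh_le
  have hlim : Filter.Tendsto (fun B : ℕ => ε / 8 * Real.log (B : ℝ)) Filter.atTop Filter.atTop :=
    (Real.tendsto_log_atTop.comp tendsto_natCast_atTop_atTop).const_mul_atTop (by positivity)
  obtain ⟨B₀, hB₀⟩ := Filter.eventually_atTop.mp (hlim.eventually_ge_atTop (c + 12 * |c₀| + 1))
  refine ⟨B₀, fun B hB hB1 x y hM hx hy L _ _ E τ N hN hE hj hτ hg => ?_⟩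
  have hj' : E.c₄ ^ 3 / E.Δ = (x : L) / y := by
    rw [hj]
    push_cast
    rfl
  obtain ⟨hy0, F, hF, hbig⟩ := hM
  have hB1' : (1 : ℝ) ≤ B := by exact_mod_cast hB1
  have hBpos : (0 : ℝ) < B := by linarith
  have hlB : 0 ≤ Real.log B := Real.log_nonneg hB1'
  have hbB := hB₀ B hB
  have hF0 : 0 < ∏ l ∈ F, l := Finset.prod_pos fun l hl => (hF l hl).1.pos
  have hdvd : ∏ l ∈ F, l ∣ N := by
    refine Finset.prod_primes_dvd N (fun l hl => (hF l hl).1.prime) fun l hl => ?_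
    exact pole_dvd hE hy0 hj' hg (hF l hl).1 (hF l hl).2.1 (hF l hl).2.2
  have hQN : Real.log ((∏ l ∈ F, l : ℕ) : ℝ) ≤ Real.log N :=
    Real.log_le_log (by exact_mod_cast hF0) (by exact_mod_cast Nat.le_of_dvd (Nat.pos_of_ne_zero hN) hdvd)
  have hQ : ε / 8 * Real.log B ≤ Real.log ((∏ l ∈ F, l : ℕ) : ℝ) := by
    rw [← Real.log_rpow hBpos]
    exact Real.log_le_log (by positivity) hbig
  have hlN : ε / 8 * Real.log B ≤ Real.log N := hQ.trans hQN
  have hx0 : x ≠ 0 := by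
    rintro rfl
    have hne : F.Nonempty := by
      rw [Finset.nonempty_iff_ne_empty]
      intro he
      rw [he, Finset.prod_empty, Nat.cast_one, Real.log_one] at hQ
      have := abs_nonneg c₀
      linarith
    obtain ⟨l, hl⟩ := hne
    exact (hF l hl).2.2 (dvd_zero _)
  have h1 := hc L _ τ hτ
  have h2 : Height.logHeight₁ (((x : ℚ) / y : ℚ) : L) ≤
      Module.finrank ℚ L * (16 * (d + 1) / ε * Real.log N) := by
    have e : (((x : ℚ) / y : ℚ) : L) = (x : L) / y := by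
      push_cast
      rfl
    rw [e]
    refine (ht_le L hx0 hy0 hx hy).trans (mul_le_mul_of_nonneg_left ?_ (Nat.cast_nonneg _))
    rw [Real.log_pow, Nat.cast_add, Nat.cast_one]
    calc 2 * (((d : ℝ) + 1) * Real.log B) = 16 * (d + 1) / ε * (ε / 8 * Real.log B) := by
          field_simp
          ring
      _ ≤ _ := mul_le_mul_of_nonneg_left hlN (by positivity)
  have hn : (0 : ℝ) ≤ Module.finrank ℚ L := Nat.cast_nonneg _
  have h3 : c + 12 * c₀ ≤ Real.log N := by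
    have := le_abs_self c₀
    linarith
  have h4 : (Module.finrank ℚ L : ℝ) * (c + 12 * c₀) ≤ Module.finrank ℚ L * Real.log N :=
    mul_le_mul_of_nonneg_left h3 hn
  rw [le_div_iff₀ (by norm_num)] at h1
  have e2 : ((16 * ((d : ℝ) + 1) / ε + 1) / 12 * Module.finrank ℚ L * Real.log N + -c₀ * Module.finrank ℚ L) * 12 =
      Module.finrank ℚ L * (16 * (d + 1) / ε * Real.log N) + Module.finrank ℚ L * Real.log N -
        12 * c₀ * Module.finrank ℚ L := by
    ring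
  have h5 : stableHeight (((x : ℚ) / y : ℚ) : L) τ * 12 ≤
      ((16 * ((d : ℝ) + 1) / ε + 1) / 12 * Module.finrank ℚ L * Real.log N + -c₀ * Module.finrank ℚ L) * 12 := by
    rw [e2]
    linarith
  linarith

/-- one rational invariant -/
theorem single (j : ℚ) : ∃ C : ℝ, 0 ≤ C ∧ ∀ κ : ℝ, 0 ≤ κ → Shaf κ C j := by
  obtain ⟨c, hc0, hc⟩ := sh_le
  obtain ⟨H, hH⟩ : ∃ H : ℝ, H = max (|j.num| : ℝ) j.den := ⟨_, rfl⟩
  have hH1 : 1 ≤ H := by rw [hH]; exact le_max_of_le_right (by exact_mod_cast j.pos)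
  have hlH : 0 ≤ Real.log H := Real.log_nonneg hH1
  refine ⟨(2 * Real.log H + c) / 12, by positivity, fun κ hκ L _ _ E τ N hN hE hj hτ hg => ?_⟩
  have h1 := hc L _ τ hτ
  have hn : (0 : ℝ) ≤ Module.finrank ℚ L := Nat.cast_nonneg _
  have h2 : Height.logHeight₁ (j : L) ≤ Module.finrank ℚ L * (2 * Real.log H) := by
    by_cases hj0 : j.num = 0
    · have : j = 0 := Rat.zero_of_num_zero hj0
      rw [this, Rat.cast_zero, logHeight₁_zero]
      positivity
    · have e : (j : L) = ((j.num : ℤ) : L) / ((j.den : ℤ) : L) := by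
        have h3 := congrArg (fun q : ℚ => (q : L)) (Rat.num_div_den j)
        simp only [Rat.cast_div, Rat.cast_intCast, Rat.cast_natCast] at h3
        rw [← h3, Int.cast_natCast]
      rw [e]
      refine ht_le L hj0 (by exact_mod_cast j.den_ne_zero) ?_ ?_
      · rw [hH]
        exact le_max_left _ _
      · rw [Int.cast_natCast, Nat.abs_cast, hH]
        exact le_max_right _ _
  have h3 : 0 ≤ κ * Module.finrank ℚ L * Real.log N :=
    mul_nonneg (mul_nonneg hκ hn) (Real.log_natCast_nonneg N)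
  rw [le_div_iff₀ (by norm_num)] at h1
  have e2 : (κ * Module.finrank ℚ L * Real.log N + (2 * Real.log H + c) / 12 * Module.finrank ℚ L) * 12 =
      12 * (κ * Module.finrank ℚ L * Real.log N) + Module.finrank ℚ L * (2 * Real.log H) + c * Module.finrank ℚ L := by
    ring
  have h5 : stableHeight (j : L) τ * 12 ≤
      (κ * Module.finrank ℚ L * Real.log N + (2 * Real.log H + c) / 12 * Module.finrank ℚ L) * 12 := by
    rw [e2]
    linarith
  linarith

theorem mono {κ C C' : ℝ} {j : ℚ} (hC : C ≤ C') (h : Shaf κ C j) : Shaf κ C' j := by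
  intro L _ _ E τ N hN hE hj hτ hg
  refine (h L E τ N hN hE hj hτ hg).trans ?_
  have := mul_le_mul_of_nonneg_right hC (Nat.cast_nonneg (α := ℝ) (Module.finrank ℚ L))
  linarith

/-- finitely many exceptions can be covered by the constant -/
theorem absorb {T : Type} (j : T → ℚ) {κ : ℝ} (hκ : 0 ≤ κ) {P Q : T → Prop}
    (h : {t : T | P t ∧ ¬ (Q t → Shaf κ 0 (j t))}.Finite) :
    ∃ C : ℝ, ∀ t : T, P t → Q t → Shaf κ C (j t) := by
  choose C hC0 hC using fun t : T => single (j t)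
  refine ⟨∑ t ∈ h.toFinset, C t, fun t hP hQ => ?_⟩
  by_cases hb : Shaf κ 0 (j t)
  · exact mono (Finset.sum_nonneg fun t _ => hC0 t) hb
  · refine mono ?_ (hC t κ hκ)
    refine Finset.single_le_sum (f := C) (fun i _ => hC0 i) (h.mem_toFinset.2 ⟨hP, fun h' => hb (h' hQ)⟩)

end Aux

/-- the slope `κ = (16 (d + 1) / ε + 1) / 12` -/
noncomputable def slope (d : ℕ) (ε : ℝ) : ℝ := (16 * (d + 1) / ε + 1) / 12

theorem slope_nonneg (d : ℕ) {ε : ℝ} (hε : 0 < ε) : 0 ≤ slope d ε := by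
  unfold slope
  positivity

/-- a limit over the exponents -/
theorem limit {X : Type*} [EMetricSpace X] {d₀ b : ℝ} {Good : ℕ → X → Prop}
    (h : ∀ k : ℕ, ∃ E : Set X, dimH E ≤ ENNReal.ofReal ((1 / ((k : ℝ) + 1) + b) / d₀) ∧
      ∀ x : X, x ∉ E → Good k x) :
    ∃ E : Set X, dimH E ≤ ENNReal.ofReal (b / d₀) ∧ ∀ x : X, x ∉ E → ∃ k : ℕ, Good k x := by
  choose E hE hg using h
  refine ⟨⋂ k, E k, Pool.Agent.Zk37.OP.inf_dim E hE, fun x hx => ?_⟩
  rw [Set.mem_iInter, not_forall] at hx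
  obtain ⟨k, hk⟩ := hx
  exact ⟨k, hg k x hk⟩

/-- typical points: every `τ` with one exceptional set -/
theorem typical {T X : Type} [MetricSpace X] (H : T → ℝ) (h1 : ∀ t, 1 ≤ H t) (φ : T → X) (j : T → ℚ) (Q : T → Prop)
    (κ : ℕ → ℝ) (hκ : ∀ k, 0 ≤ κ k)
    (h : ∀ (k : ℕ) (τ : ℝ), 0 < τ → ∃ E : Set X, dimH E ≤ ENNReal.ofReal ((1 / ((k : ℝ) + 1)) / τ) ∧
      ∀ ξ : X, ξ ∉ E → ∀ A : ℝ, {t : T | dist (φ t) ξ ≤ A * H t ^ (-τ) ∧ ¬ (Q t → Shaf (κ k) 0 (j t))}.Finite) :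
    ∃ E : Set X, dimH E = 0 ∧ ∀ ξ : X, ξ ∉ E → ∀ τ : ℝ, 0 < τ → ∃ κ' : ℝ, ∀ A : ℝ, ∃ C : ℝ, ∀ t : T,
      dist (φ t) ξ ≤ A * H t ^ (-τ) → Q t → Shaf κ' C (j t) := by
  have h2 : ∀ m : ℕ, ∃ E : Set X, dimH E ≤ ENNReal.ofReal (0 / (1 / ((m : ℝ) + 1))) ∧ ∀ ξ : X, ξ ∉ E → ∃ k : ℕ,
      ∀ A : ℝ, {t : T | dist (φ t) ξ ≤ A * H t ^ (-(1 / ((m : ℝ) + 1))) ∧ ¬ (Q t → Shaf (κ k) 0 (j t))}.Finite := by
    intro m
    refine limit fun k => ?_
    obtain ⟨E, hE, hg⟩ := h k (1 / ((m : ℝ) + 1)) (by positivity)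
    exact ⟨E, by rw [add_zero]; exact hE, hg⟩
  choose E hE hg using h2
  refine ⟨⋃ m, E m, ?_, fun ξ hξ τ hτ => ?_⟩
  · rw [dimH_iUnion]
    refine le_antisymm (iSup_le fun m => ?_) bot_le
    have := hE m
    rwa [zero_div, ENNReal.ofReal_zero] at this
  · obtain ⟨m, hm⟩ := exists_nat_one_div_lt hτ
    rw [Set.mem_iUnion, not_exists] at hξ
    obtain ⟨k, hk⟩ := hg m ξ (hξ m)
    refine ⟨κ k, fun A => ?_⟩
    obtain ⟨C, hC⟩ := absorb j (hκ k) (P := fun t => dist (φ t) ξ ≤ |A| * H t ^ (-(1 / ((m : ℝ) + 1)))) (Q := Q)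
      (hk |A|)
    refine ⟨C, fun t ht hQ => hC t (ht.trans ?_) hQ⟩
    have h3 : H t ^ (-τ) ≤ H t ^ (-(1 / ((m : ℝ) + 1))) :=
      Real.rpow_le_rpow_of_exponent_le (h1 t) (by linarith)
    have h4 : 0 ≤ H t ^ (-τ) := Real.rpow_nonneg (by linarith [h1 t]) _
    calc A * H t ^ (-τ) ≤ |A| * H t ^ (-τ) := mul_le_mul_of_nonneg_right (le_abs_self A) h4
      _ ≤ _ := mul_le_mul_of_nonneg_left h3 (abs_nonneg A)

/-- **Theorem.** Let `J = A / D` be a rational function of degree `d ≥ 1` over `ℚ`. See the head of the file. -/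
theorem result (d : ℕ) (A D : ℤ[X]) (h : IsFunction d A D) :
    -- (1) all but few members
    (∀ ε c₀ : ℝ, 0 < ε →
      (∃ C : ℝ, ∀ B : ℕ, 1 ≤ B → ({t : ℚ | |t.num| ≤ B ∧ t.den ≤ B ∧
        ¬ HoldsAt (slope d ε) (-c₀) A D t}.ncard : ℝ) ≤ C * (B : ℝ) ^ (1 + ε)) ∧
      (2 ≤ poleCount d D → ∃ C : ℝ, ∀ B : ℕ, 1 ≤ B → ({t : ℚ | |t.num| ≤ B ∧ t.den ≤ B ∧
        ¬ HoldsAt (slope d ε) (-c₀) A D t}.ncard : ℝ) ≤ C * (B : ℝ) ^ ε) ∧
      (1 ≤ D.natDegree → ∃ C : ℝ, ∀ B : ℕ, 1 ≤ B → ({t : ℤ | |t| ≤ B ∧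
        ¬ HoldsAt (slope d ε) (-c₀) A D t}.ncard : ℝ) ≤ C * (B : ℝ) ^ ε)) ∧
    -- (2) windows around starshaped functions
    (1 ≤ D.natDegree → ∀ (f : ℕ → ℝ → ℝ) (a τ θ : ℝ), Starshaped a f → Conv a f τ → 0 ≤ τ → θ < 1 →
      (∀ ε c₀ : ℝ, 0 < ε → ∃ E : Set ℝ, dimH E ≤ ENNReal.ofReal ((ε + τ) / (1 - θ)) ∧ ∀ x : ℝ, a < x → x ∉ E →
        ∀ c : ℝ, ∃ n₀ : ℕ, ∀ n : ℕ, n₀ ≤ n → ∀ t : ℤ, |(|t| : ℝ) - f n x| ≤ c * (f n x) ^ θ →
          HoldsAt (slope d ε) (-c₀) A D t) ∧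
      (∃ E : Set ℝ, dimH E ≤ ENNReal.ofReal (τ / (1 - θ)) ∧ ∀ x : ℝ, a < x → x ∉ E → ∃ κ : ℝ,
        ∀ c : ℝ, ∃ C : ℝ, ∀ (n : ℕ) (t : ℤ), |(|t| : ℝ) - f n x| ≤ c * (f n x) ^ θ → HoldsOrPole κ C A D t)) ∧
    -- (3) typical points
    (1 ≤ D.natDegree → ∀ (X : Type) [MetricSpace X] (φ : ℤ → X), ∃ E : Set X, dimH E = 0 ∧ ∀ ξ : X, ξ ∉ E →
      ∀ τ : ℝ, 0 < τ → ∃ κ : ℝ, ∀ M : ℝ, ∃ C : ℝ, ∀ t : ℤ, dist (φ t) ξ ≤ M * (max 1 (|t| : ℝ)) ^ (-τ) →
        HoldsOrPole κ C A D t) ∧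
    (2 ≤ poleCount d D → ∀ (X : Type) [MetricSpace X] (φ : ℚ → X), ∃ E : Set X, dimH E = 0 ∧ ∀ ξ : X, ξ ∉ E →
      ∀ τ : ℝ, 0 < τ → ∃ κ : ℝ, ∀ M : ℝ, ∃ C : ℝ, ∀ t : ℚ, dist (φ t) ξ ≤ M * (height t) ^ (-τ) →
        HoldsOrPole κ C A D t) ∧
    -- (4) products of powers of Weil restrictions
    (∀ (κ C : ℝ) (r : ℕ) (L : Fin r → Type) [∀ i, Field (L i)] [∀ i, NumberField (L i)] (t : Fin r → ℚ)
      (E : ∀ i, WeierstrassCurve (L i)) (τ : ∀ i, InfinitePlace (L i) → UpperHalfPlane) (m : Fin r → ℕ) (N : ℕ),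
      N ≠ 0 → (∀ i, HoldsAt κ C A D (t i) ∧ (E i).Δ ≠ 0 ∧
        (E i).c₄ ^ 3 / (E i).Δ = ((value A (t i) / value D (t i) : ℚ) : L i) ∧
        IsPeriod ((value A (t i) / value D (t i) : ℚ) : L i) (τ i) ∧ GoodOutside N (E i)) →
      ∑ i, (m i : ℝ) * stableHeight ((value A (t i) / value D (t i) : ℚ) : L i) (τ i) ≤
        κ * (∑ i, m i * Module.finrank ℚ (L i) : ℕ) * Real.log N +
          C * (∑ i, m i * Module.finrank ℚ (L i) : ℕ)) ∧
    -- examples of starshaped functions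
    ((∀ (v : ℕ → ℝ) (τ : ℝ), (∀ n, 0 < v n) → (∀ t : ℝ, τ < t → Summable (fun n : ℕ => (v n) ^ (-t))) →
        Starshaped 0 (fun n x => v n * x) ∧ Conv 0 (fun n x => v n * x) τ) ∧
      (∀ v : ℕ → ℝ, (∀ n, 1 ≤ v n) → (∀ t : ℝ, 0 < t → Summable fun n : ℕ => Real.exp (-(t * v n))) →
        Starshaped 1 (fun n x => x ^ (v n)) ∧ Conv 1 (fun n x => x ^ (v n)) 0) ∧
      (∀ (a : ℝ) (g : ℝ → ℝ), 0 ≤ a → (∀ x y : ℝ, a < x → x ≤ y → g x / x ≤ g y / y) →
        (∀ x : ℝ, a < x → x < g x) → Starshaped a (fun n x => g^[n] x) ∧ Conv a (fun n x => g^[n] x) 0)) := by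
  have hR : Pool.Agent.N365.LS.Rat d A D := ⟨h.pos, h.deg_num, h.deg_den, h.deg, h.coprime⟩
  have hpole : poleCount d D = Pool.Agent.N365.LS.poleCount d D := rfl
  have part1 : ∀ ε c₀ : ℝ, 0 < ε →
      (∃ C : ℝ, ∀ B : ℕ, 1 ≤ B → ({t : ℚ | |t.num| ≤ B ∧ t.den ≤ B ∧
        ¬ HoldsAt (slope d ε) (-c₀) A D t}.ncard : ℝ) ≤ C * (B : ℝ) ^ (1 + ε)) ∧
      (2 ≤ poleCount d D → ∃ C : ℝ, ∀ B : ℕ, 1 ≤ B → ({t : ℚ | |t.num| ≤ B ∧ t.den ≤ B ∧
        ¬ HoldsAt (slope d ε) (-c₀) A D t}.ncard : ℝ) ≤ C * (B : ℝ) ^ ε) ∧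
      (1 ≤ D.natDegree → ∃ C : ℝ, ∀ B : ℕ, 1 ≤ B → ({t : ℤ | |t| ≤ B ∧
        ¬ HoldsAt (slope d ε) (-c₀) A D t}.ncard : ℝ) ≤ C * (B : ℝ) ^ ε) := by
    intro ε c₀ hε
    obtain ⟨C, hC⟩ := Pool.Agent.N365.FH.few_rat hR hε (follows d hε c₀)
    refine ⟨⟨max C 0, fun B hB => ?_⟩, fun h2 => ⟨C, fun B hB => ?_⟩,
      fun hD => Pool.Agent.N365.FH.few_int hR hD hε (follows d hε c₀)⟩
    · have hB1 : (1 : ℝ) ≤ B := by exact_mod_cast hB
      refine (hC B hB).trans (mul_le_mul (le_max_left _ _) ?_ (by positivity) (le_max_right _ _))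
      refine Real.rpow_le_rpow_of_exponent_le hB1 ?_
      split_ifs <;> linarith
    · have h3 := hC B hB
      rw [if_pos (by rw [← hpole]; exact h2)] at h3
      exact h3
  refine ⟨part1, fun hD f a τ θ hf hv hτ hθ => ⟨fun ε c₀ hε => ?_, ?_⟩, fun hD X _ φ => ?_, fun h2 X _ φ => ?_,
    fun κ C r L _ _ t E τ m N hN hp => ?_,
    Pool.Agent.R482.ST.ex_mul, Pool.Agent.R482.ST.ex_pow, Pool.Agent.R482.ST.ex_orbit⟩
  · obtain ⟨E, hE, hg⟩ := Pool.Agent.Zk37.OP.win_int (fun t : ℤ => ¬ HoldsAt (slope d ε) (-c₀) A D t) hf hτ hv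
      hε.le hθ ((part1 ε c₀ hε).2.2 hD)
    refine ⟨E, hE, fun x hx hxE c => ?_⟩
    obtain ⟨n₀, hn₀⟩ := hg x hx hxE c
    exact ⟨n₀, fun n hn t ht => not_not.1 (hn₀ n hn t ht)⟩
  · obtain ⟨E, hE, hg⟩ := limit (X := ℝ) (d₀ := 1 - θ) (b := τ)
      (Good := fun k x => a < x → ∀ c : ℝ, ∃ n₀ : ℕ, ∀ n : ℕ, n₀ ≤ n → ∀ t : ℤ,
        |(|t| : ℝ) - f n x| ≤ c * (f n x) ^ θ → HoldsAt (slope d (1 / ((k : ℝ) + 1))) (-0) A D t) (fun k => by
        obtain ⟨E, hE, hg⟩ := Pool.Agent.Zk37.OP.win_int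
          (fun t : ℤ => ¬ HoldsAt (slope d (1 / ((k : ℝ) + 1))) (-0) A D t) hf hτ hv
          (by positivity) hθ ((part1 (1 / ((k : ℝ) + 1)) 0 (by positivity)).2.2 hD)
        refine ⟨E, hE, fun x hxE hx c => ?_⟩
        obtain ⟨n₀, hn₀⟩ := hg x hx hxE c
        exact ⟨n₀, fun n hn t ht => not_not.1 (hn₀ n hn t ht)⟩)
    refine ⟨E, hE, fun x hx hxE => ?_⟩
    obtain ⟨k, hk⟩ := hg x hxE
    refine ⟨slope d (1 / ((k : ℝ) + 1)), fun c => ?_⟩
    obtain ⟨n₀, hn₀⟩ := hk hx c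
    have hfin : {t : ℤ | (∃ n : ℕ, |(|t| : ℝ) - f n x| ≤ c * (f n x) ^ θ) ∧ ¬ (value D t ≠ 0 →
        Shaf (slope d (1 / ((k : ℝ) + 1))) 0 (value A t / value D t))}.Finite := by
      have hsub : {t : ℤ | (∃ n : ℕ, |(|t| : ℝ) - f n x| ≤ c * (f n x) ^ θ) ∧ ¬ (value D t ≠ 0 →
          Shaf (slope d (1 / ((k : ℝ) + 1))) 0 (value A t / value D t))} ⊆
          ⋃ n ∈ Finset.range n₀, {t : ℤ | |(|t| : ℝ) - f n x| ≤ c * (f n x) ^ θ} := by
        rintro t ⟨⟨n, hn⟩, hb⟩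
        rw [Set.mem_iUnion₂]
        refine ⟨n, ?_, hn⟩
        rw [Finset.mem_range]
        by_contra hcon
        apply hb
        intro _
        have := (hn₀ n (not_lt.1 hcon) t hn).2
        rwa [neg_zero] at this
      refine Set.Finite.subset ?_ hsub
      refine Set.Finite.biUnion (Finset.finite_toSet _) fun n _ => ?_
      refine (Finset.finite_toSet (Finset.Icc (-(⌈f n x + c * (f n x) ^ θ⌉)) ⌈f n x + c * (f n x) ^ θ⌉)).subset
        fun t ht => ?_
      rw [Finset.mem_coe, Finset.mem_Icc]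
      have h1 : (|t| : ℝ) ≤ f n x + c * (f n x) ^ θ := by
        have ht' : |(|t| : ℝ) - f n x| ≤ c * (f n x) ^ θ := ht
        have := (abs_le.1 ht').2
        linarith
      have h2 : ((|t| : ℤ) : ℝ) ≤ (⌈f n x + c * (f n x) ^ θ⌉ : ℝ) := by
        rw [Int.cast_abs]
        exact h1.trans (Int.le_ceil _)
      exact abs_le.1 (by exact_mod_cast h2)
    obtain ⟨C, hC⟩ := absorb (fun t : ℤ => value A t / value D t) (slope_nonneg d (by positivity)) hfin
    exact ⟨C, fun n t ht hQ => hC t ⟨n, ht⟩ hQ⟩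
  · refine typical (fun t : ℤ => max 1 (|t| : ℝ)) (fun t => le_max_left _ _) φ
      (fun t : ℤ => value A t / value D t) (fun t : ℤ => value D t ≠ 0) (fun k => slope d (1 / ((k : ℝ) + 1)))
      (fun k => slope_nonneg d (by positivity)) fun k τ hτ => ?_
    obtain ⟨E, hE, hg⟩ := Pool.Agent.Zk37.OP.near_int (X := X)
      (fun t : ℤ => ¬ HoldsAt (slope d (1 / ((k : ℝ) + 1))) (-0) A D t) (s := 1 / ((k : ℝ) + 1)) (τ := τ)
      (by positivity) hτ ((part1 (1 / ((k : ℝ) + 1)) 0 (by positivity)).2.2 hD) φ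
    refine ⟨E, hE, fun ξ hξ M => (hg ξ hξ M).subset fun t ht => ⟨ht.1, fun hcon => ht.2 fun _ => ?_⟩⟩
    have := hcon.2
    rwa [neg_zero] at this
  · refine typical height (fun t => Pool.Agent.Zk37.OP.one_le_hq t) φ
      (fun t : ℚ => value A t / value D t) (fun t : ℚ => value D t ≠ 0) (fun k => slope d (1 / ((k : ℝ) + 1)))
      (fun k => slope_nonneg d (by positivity)) fun k τ hτ => ?_
    obtain ⟨E, hE, hg⟩ := Pool.Agent.Zk37.OP.near_rat (X := X)
      (fun t : ℚ => ¬ HoldsAt (slope d (1 / ((k : ℝ) + 1))) (-0) A D t) (s := 1 / ((k : ℝ) + 1)) (τ := τ)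
      (by positivity) hτ ((part1 (1 / ((k : ℝ) + 1)) 0 (by positivity)).2.1 h2) φ
    refine ⟨E, hE, fun ξ hξ M => (hg ξ hξ M).subset fun t ht => ⟨ht.1, fun hcon => ht.2 fun _ => ?_⟩⟩
    have := hcon.2
    rwa [neg_zero] at this
  · have h1 : ∀ i, (m i : ℝ) * stableHeight ((value A (t i) / value D (t i) : ℚ) : L i) (τ i) ≤
        (m i : ℝ) * (κ * Module.finrank ℚ (L i) * Real.log N + C * Module.finrank ℚ (L i)) := fun i =>
      mul_le_mul_of_nonneg_left ((hp i).1.2 (L i) (E i) (τ i) N hN (hp i).2.1 (hp i).2.2.1 (hp i).2.2.2.1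
        (hp i).2.2.2.2) (Nat.cast_nonneg _)
    refine (Finset.sum_le_sum fun i _ => h1 i).trans (le_of_eq ?_)
    push_cast
    rw [Finset.mul_sum, Finset.mul_sum, Finset.sum_mul, ← Finset.sum_add_distrib]
    refine Finset.sum_congr rfl fun i _ => ?_
    ring

end Pool.Agent.Results.MP_07b2d0_nt.OneParameterFamilies
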