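import Mathlib
import Pool.Agent.N141.TS.Thin
import Pool.Agent.N141.TS.Frey

/-!
# An explicit bound of Shafarevich type, linear in `g log N_S`, along thin sequences of elliptic curves in families with several
# parameters: Weil restrictions of all twists from ALL number fields, and their products

Let `A` be an abelian scheme over `S = Spec ℤ[1 / N]` whose generic fibre is a Weil restriction `Res_{L/ℚ} E`, where `L` is ANY
number field and `E` is ANY elliptic curve over `L` of a given rational invariant `j` (all twists), or a product of powers of such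
abelian varieties, of dimension `g`. As `A` has good reduction outside `N`, so has `E` (Néron-Ogg-Shafarevich; also
`N_A = N(f_E) D_L ^ 2`, Milne). Here `h_F(Res_{L/ℚ} E) = n h_F(E)`, `n = [L : ℚ]` (stable heights: over the algebraic closure it is
the product of the conjugates of `E`), and `12 n h_F(E)` is the sum of `log max(|j|_v, 1)` over the finite places `v` of `L` and of
the archimedean terms.

Let `J = A / D` be a rational function over `ℚ` in `r` variables, for example the `j`-invariant of an elliptic curve over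
`ℚ(t₁, …, t_r)`, whose reductions modulo the primes have many poles in the mean (`MeanPoles`); this is so for the universal family
`y² = x³ + t₁ x + t₂`. Let `P_i(n) = ∑ a_x n ^ x` be sums of real powers with real coefficients whose largest exponents are
positive, distinct and not integers and have positive coefficients, for example `n ^ √2`, `π n ^ 0.3`. There is an absolute constant
`C`, and for every `ε > 0` there is `κ`, such that for all but `ε N` of the integers `n` in `(N, 2 N]`, `N` large, and for all but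
the proportion `ε` of the primes `n` in `(N, 2 N]`, the bound `h_F(A) ≤ κ g log N_S + C g` holds for the products `A` of powers
of Weil restrictions of elliptic curves of invariants `j = J (⌊P₁(n)⌋, …, ⌊P_r(n)⌋)`, over all number fields, with good reduction
outside `N_S`. So there is one parameter only, and of the vectors `(t₁, …, t_r)` in a box about `N` occur, while the starting
result `AlmostAllWeilRestrictions` needs all the `j` up to a given height and `ResidueVectors` all the vectors of a family of
residues modulo one integer; neither contains such a sequence.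

Proof. The integer vectors `⌊P_i(n)⌋` are jointly equidistributed modulo all `q ≤ N ^ δ`, over the integers and over the primes
(exponential sums, `Pool.Agent.N666`). By Turan's sieve with the primes `p` in `(N ^ (τ δ), N ^ δ]`, `τ` small, all but the
proportion `ε` of the `n` have such a prime dividing `D` and not `A`; by the Schwartz-Zippel lemma `D ≠ 0` for almost all `n`
(`Pool.Agent.N141.TS.thin`, helper141). All elliptic curves of invariant `j` over number fields have bad reduction at the primes
above `p`, so `p` divides `N_S`, while the height of `j` is `O(log N)`, hence `O(log p)`.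
-/

set_option autoImplicit false
set_option linter.unusedSectionVars false

namespace Pool.Agent.Results.MP_07b2d0_nt.ThinSequences

open NumberField IsDedekindDomain

/-- the modular invariant `j(τ) = E₄(τ) ^ 3 / Δ(τ) = 1 / q + 744 + ⋯` -/
noncomputable def jInv (τ : UpperHalfPlane) : ℂ :=
  ModularForm.E₄ τ ^ 3 / ModularForm.discriminant τ

/-- the archimedean term `- log (|Δ(τ)| (Im τ) ^ 6)` of the Faltings height -/
noncomputable def arch (τ : UpperHalfPlane) : ℝ :=
  -Real.log (‖ModularForm.discriminant τ‖ * τ.im ^ 6)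

/-- the points `τ w` have modular invariant `j` -/
def IsPeriod {L : Type} [Field L] [NumberField L] (j : L)
    (τ : InfinitePlace L → UpperHalfPlane) : Prop := ∀ w, jInv (τ w) = w.embedding j

/-- the stable Faltings height of the Weil restriction `A = Res_{L/ℚ} E` of an elliptic curve `E`
over `L` of invariant `j`, where the points `τ w` have invariant `j` (up to an absolute multiple of
`[L : ℚ] = dim A` which depends on the normalisation of the metric only): `12 h_F(A)` is the sum of
`log max(|j|_v, 1)` over the finite places `v` of `L`, the stable discriminant of `E`, and of the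
archimedean terms -/
noncomputable def stableHeight {L : Type} [Field L] [NumberField L] (j : L)
    (τ : InfinitePlace L → UpperHalfPlane) : ℝ :=
  (∑ᶠ v : HeightOneSpectrum (𝓞 L), Real.log (max (FinitePlace.mk v j) 1) +
    ∑ w : InfinitePlace L, (w.mult : ℝ) * arch (τ w)) / 12

/-- good reduction at `v`: some Weierstrass equation over `L` of the curve is integral at `v` and
has a discriminant which is a unit at `v` -/
def GoodAt {L : Type} [Field L] [NumberField L] (v : HeightOneSpectrum (𝓞 L))
    (E : WeierstrassCurve L) : Prop :=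
  ∃ C : WeierstrassCurve.VariableChange L,
    v.valuation L (C • E).a₁ ≤ 1 ∧ v.valuation L (C • E).a₂ ≤ 1 ∧ v.valuation L (C • E).a₃ ≤ 1 ∧
    v.valuation L (C • E).a₄ ≤ 1 ∧ v.valuation L (C • E).a₆ ≤ 1 ∧ v.valuation L (C • E).Δ = 1

/-- good reduction at all primes of `L` which do not divide `N` -/
def GoodOutside {L : Type} [Field L] [NumberField L] (N : ℕ) (E : WeierstrassCurve L) : Prop :=
  ∀ v : HeightOneSpectrum (𝓞 L), (N : 𝓞 L) ∉ v.asIdeal → GoodAt v E

/-- the bound, with parameters `κ` and `C`, for the Weil restrictions `A = Res_{L/ℚ} E` of all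
elliptic curves `E` over `L` of invariant `j`: `h_F(A) ≤ κ n log N + C n`, where `n = [L : ℚ] = dim A`,
whenever `E` has good reduction outside `N`, in particular whenever `A` extends to an abelian scheme
over `Spec ℤ[1 / N]` -/
def Bound (κ C : ℝ) {L : Type} [Field L] [NumberField L] (j : L) : Prop :=
  ∀ (E : WeierstrassCurve L) (τ : InfinitePlace L → UpperHalfPlane) (N : ℕ), N ≠ 0 → E.Δ ≠ 0 →
    E.c₄ ^ 3 / E.Δ = j → IsPeriod j τ → GoodOutside N E →
    stableHeight j τ ≤ κ * Module.finrank ℚ L * Real.log N + C * Module.finrank ℚ L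

open MvPolynomial

/-- the sum over the primes `y < p ≤ x` of the proportion of the vectors modulo `p` that are zeros of
`D` but not of `A` is at least `δ (log log x - log log y) - C` -/
def MeanPoles {r : ℕ} (A D : MvPolynomial (Fin r) ℤ) : Prop :=
  ∃ δ C : ℝ, 0 < δ ∧ ∀ y x : ℕ, 3 ≤ y → y ≤ x →
    δ * (Real.log (Real.log x) - Real.log (Real.log y)) - C ≤
      ∑ p ∈ (Finset.Ioc y x).filter Nat.Prime,
        ({ρ : Fin r → ZMod p | aeval ρ D = 0 ∧ aeval ρ A ≠ 0}.ncard : ℝ) / (p : ℝ) ^ r

/-- `c` is the largest exponent of the generalised polynomial `∑ a_x n ^ x`; it is positive and not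
an integer and has a positive coefficient. -/
def Admissible (F : Finset ℝ) (a : ℝ → ℝ) (c : ℝ) : Prop :=
  c ∈ F ∧ (∀ x ∈ F, x ≤ c) ∧ 0 < c ∧ (∀ m : ℕ, c ≠ m) ∧ 0 < a c

/-- the integer parts of the values at `n` of the generalised polynomials -/
noncomputable def value {r : ℕ} (F : Fin r → Finset ℝ) (a : Fin r → ℝ → ℝ) (n : ℕ) : Fin r → ℤ :=
  fun i => ⌊∑ x ∈ F i, a i x * (n : ℝ) ^ x⌋

/-- `v` is not a pole of `A / D`, and the bound holds at `(A / D) (v)` over all number fields -/
def Holds (κ C : ℝ) {r : ℕ} (A D : MvPolynomial (Fin r) ℤ) (v : Fin r → ℤ) : Prop :=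
  eval v D ≠ 0 ∧ ∀ (L : Type) [Field L] [NumberField L],
    Bound κ C (((eval v A : ℤ) : L) / ((eval v D : ℤ) : L))

section Aux

open Pool.Agent.Y733.UD Pool.Agent.Y733.LS Pool.Agent.W223.AK Pool.Agent.H691R3
  Pool.Agent.Y733.FF Pool.Agent.N141.TS Height

/-- the bound from a large pole -/
theorem bound_of : ∃ C : ℝ, 0 < C ∧ ∀ (σ : ℝ), 0 ≤ σ → ∀ x y : ℤ, Big σ x y →
    ∀ (L : Type) [Field L] [NumberField L], Bound (σ / 12) C ((x : L) / y) := by
  obtain ⟨c, hc0, hc⟩ := arch_le
  refine ⟨(c + 1) / 12, by positivity, fun σ hσ x y hb L _ _ => ?_⟩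
  intro E τ N hN hE hj hτ hg
  obtain ⟨hy0, p, hp, hpy, hpx, H, -, hxH, hyH, hle⟩ := hb
  have hx0 : x ≠ 0 := by
    rintro rfl
    exact hpx (dvd_zero _)
  have hτ' : Pool.Agent.TH876.FH.IsPeriod ((x : L) / y) τ := hτ
  have h2 := hc L _ τ hτ'
  have h4 : ht ((x : L) / y) =
      ∑ w : InfinitePlace L, (w.mult : ℝ) * Real.log (max (w ((x : L) / y)) 1) +
      ∑ᶠ v : HeightOneSpectrum (𝓞 L), Real.log (max (FinitePlace.mk v ((x : L) / y)) 1) := by
    rw [← Pool.Agent.TH876.FH.Hj_height, logHeight_eq, ht_eq_Sa]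
  have h6 : ht ((x : L) / y) ≤ Module.finrank ℚ L * (σ * Real.log p) := by
    have h7 : logHeight₁ ((x : L) / y) = ht ((x : L) / y) := by
      rw [logHeight_eq, ht_eq_Sa]
    rw [← h7]
    exact (ht_le L hx0 hy0 hxH hyH).trans (mul_le_mul_of_nonneg_left hle (Nat.cast_nonneg _))
  -- the prime `p` divides `N`
  have hpN : p ∣ N := by
    obtain ⟨v, hv⟩ := exists_above L hp
    have hbad : ¬ Pool.Agent.TH876.FH.GoodAt v E := by
      intro hg'
      have h1 := good_int v E hE hg'
      rw [hj, fv_le_one_iff, map_div₀, val_int hp hv hpx] at h1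
      have h2 := val_lt hv hpy
      have h3 : v.valuation L (y : L) ≠ 0 := (v.valuation L).ne_zero_iff.2 (by exact_mod_cast hy0)
      have h4 : (1 : WithZero (Multiplicative ℤ)) ≤ v.valuation L (y : L) := by
        rw [div_le_iff₀ (zero_lt_iff.2 h3), one_mul] at h1
        exact h1
      exact absurd h2 (not_lt.2 h4)
    have hmem : (N : 𝓞 L) ∈ v.asIdeal := by
      by_contra hcon
      exact hbad (hg v hcon)
    by_contra hcon
    have h1 : ¬ (p : ℤ) ∣ (N : ℤ) := by exact_mod_cast hcon
    have h2 := not_mem_of hp hv h1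
    rw [Int.cast_natCast] at h2
    exact h2 hmem
  have hlog : Real.log p ≤ Real.log N :=
    Real.log_le_log (by exact_mod_cast hp.pos)
      (by exact_mod_cast Nat.le_of_dvd (Nat.pos_of_ne_zero hN) hpN)
  have hn : (0 : ℝ) ≤ Module.finrank ℚ L := Nat.cast_nonneg _
  have h8 : (Module.finrank ℚ L : ℝ) * (σ * Real.log p) ≤
      Module.finrank ℚ L * (σ * Real.log N) :=
    mul_le_mul_of_nonneg_left (mul_le_mul_of_nonneg_left hlog hσ) hn
  unfold stableHeight
  have e : ∑ w : InfinitePlace L, (w.mult : ℝ) * arch (τ w) =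
      ∑ w : InfinitePlace L, (w.mult : ℝ) * Pool.Agent.TH876.FH.arch (τ w) := rfl
  rw [e, div_le_iff₀ (by norm_num)]
  have e2 : (σ / 12 * Module.finrank ℚ L * Real.log N + (c + 1) / 12 * Module.finrank ℚ L) * 12 =
      Module.finrank ℚ L * (σ * Real.log N) + c * Module.finrank ℚ L + Module.finrank ℚ L := by
    ring
  rw [e2]
  linarith

end Aux

/-- products of powers of Weil restrictions -/
theorem products {κ C : ℝ} {r : ℕ} (L : Fin r → Type) [∀ i, Field (L i)] [∀ i, NumberField (L i)]
    (j : ∀ i, L i) (E : ∀ i, WeierstrassCurve (L i))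
    (τ : ∀ i, InfinitePlace (L i) → UpperHalfPlane) (m : Fin r → ℕ) (N : ℕ) (hN : N ≠ 0)
    (h : ∀ i, Bound κ C (j i) ∧ (E i).Δ ≠ 0 ∧ (E i).c₄ ^ 3 / (E i).Δ = j i ∧
      IsPeriod (j i) (τ i) ∧ GoodOutside N (E i)) :
    ∑ i, (m i : ℝ) * stableHeight (j i) (τ i) ≤
      κ * (∑ i, m i * Module.finrank ℚ (L i) : ℕ) * Real.log N +
        C * (∑ i, m i * Module.finrank ℚ (L i) : ℕ) := by
  have h1 : ∀ i, (m i : ℝ) * stableHeight (j i) (τ i) ≤
      (m i : ℝ) * (κ * Module.finrank ℚ (L i) * Real.log N + C * Module.finrank ℚ (L i)) := fun i =>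
    mul_le_mul_of_nonneg_left ((h i).1 (E i) (τ i) N hN (h i).2.1 (h i).2.2.1 (h i).2.2.2.1
      (h i).2.2.2.2) (Nat.cast_nonneg _)
  refine (Finset.sum_le_sum fun i _ => h1 i).trans (le_of_eq ?_)
  push_cast
  rw [Finset.mul_sum, Finset.mul_sum, Finset.sum_mul, ← Finset.sum_add_distrib]
  refine Finset.sum_congr rfl fun i _ => ?_
  ring

/-- **Theorem.** (1) There is an absolute constant `C` such that: let `A, D` be integral polynomials in `r ≥ 1` variables such that
`A / D` has many poles in the mean, `D ≠ 0`, let `P_i` be generalised polynomials with positive and distinct largest exponents which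
are not integers and have positive coefficients, and `ε > 0`. There are `κ` and `N₀` such that for `N ≥ N₀`, for all but `ε N` of
the integers `n` in `(N, 2 N]` and all but the proportion `ε` of the primes in `(N, 2 N]` the bound
`h_F(A) ≤ κ n log N_S + C n` holds for the Weil restrictions `A = Res_{L/ℚ} E`, of dimension `n = [L : ℚ]`, with good reduction
outside `N_S`, of ALL elliptic curves `E` of invariant `j = (A / D)(⌊P₁(n)⌋, …, ⌊P_r(n)⌋)` over ALL number fields `L`. (2) It follows
for products of powers of such Weil restrictions, with different curves, fields and invariants. (3) The invariant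
`6912 t₁³ / (4 t₁³ + 27 t₂²)` of the universal family `y² = x³ + t₁ x + t₂` has many poles in the mean. -/
theorem result :
    (∃ C : ℝ, 0 < C ∧ ∀ (r : ℕ) (A D : MvPolynomial (Fin r) ℤ), 0 < r → D ≠ 0 → MeanPoles A D →
      ∀ (F : Fin r → Finset ℝ) (a : Fin r → ℝ → ℝ) (c : Fin r → ℝ),
        (∀ i, Admissible (F i) (a i) (c i)) → Function.Injective c → ∀ ε : ℝ, 0 < ε →
      ∃ (κ : ℝ) (N₀ : ℕ), 0 < κ ∧ ∀ N : ℕ, N₀ ≤ N →
          ({n : ℕ | n ∈ Finset.Ioc N (2 * N) ∧ ¬ Holds κ C A D (value F a n)}.ncard : ℝ) ≤ ε * N ∧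
          ({n : ℕ | n ∈ (Finset.Ioc N (2 * N)).filter Nat.Prime ∧ ¬ Holds κ C A D (value F a n)}.ncard : ℝ) ≤
            ε * ((Finset.Ioc N (2 * N)).filter Nat.Prime).card) ∧
    (∀ (κ C : ℝ) (r : ℕ) (L : Fin r → Type) [∀ i, Field (L i)] [∀ i, NumberField (L i)]
      (j : ∀ i, L i) (E : ∀ i, WeierstrassCurve (L i))
      (τ : ∀ i, InfinitePlace (L i) → UpperHalfPlane) (m : Fin r → ℕ) (N : ℕ), N ≠ 0 →
      (∀ i, Bound κ C (j i) ∧ (E i).Δ ≠ 0 ∧ (E i).c₄ ^ 3 / (E i).Δ = j i ∧
        IsPeriod (j i) (τ i) ∧ GoodOutside N (E i)) →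
      ∑ i, (m i : ℝ) * stableHeight (j i) (τ i) ≤
        κ * (∑ i, m i * Module.finrank ℚ (L i) : ℕ) * Real.log N +
          C * (∑ i, m i * Module.finrank ℚ (L i) : ℕ)) ∧
    MeanPoles (C 6912 * X 0 ^ 3 : MvPolynomial (Fin 2) ℤ) (C 4 * X 0 ^ 3 + C 27 * X 1 ^ 2) := by
  refine ⟨?_, fun κ C r L _ _ j E τ m N hN h => products L j E τ m N hN h, Pool.Agent.N141.TS.mean_wei⟩
  obtain ⟨C, hC, hb⟩ := bound_of
  refine ⟨C, hC, fun r A D hr hD hM F a c h hc ε hε => ?_⟩
  obtain ⟨σ, hσ, N₀, hN₀⟩ := Pool.Agent.N141.TS.thin hr hD hM ⟨h, hc⟩ ε hε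
  have key : ∀ v : Fin r → ℤ, Pool.Agent.N141.TS.Big σ (eval v A) (eval v D) →
      Holds ((σ + 1) / 12) C A D v := by
    intro v hv
    refine ⟨hv.1, fun L _ _ E τ N hN hE hj hτ hg => ?_⟩
    refine (hb σ hσ _ _ hv L E τ N hN hE hj hτ hg).trans ?_
    have h1 : 0 ≤ (Module.finrank ℚ L : ℝ) * Real.log N :=
      mul_nonneg (Nat.cast_nonneg _) (Real.log_natCast_nonneg _)
    nlinarith
  refine ⟨(σ + 1) / 12, N₀, by positivity, fun N hN => ?_⟩
  obtain ⟨k1, k2⟩ := hN₀ N hN
  rw [Nat.card_Ioc, show 2 * N - N = N by omega] at k1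
  exact ⟨(Pool.Agent.N141.TS.ncard_mono fun n _ hn hb => hn (key _ hb)).trans k1,
    (Pool.Agent.N141.TS.ncard_mono fun n _ hn hb => hn (key _ hb)).trans k2⟩

end Pool.Agent.Results.MP_07b2d0_nt.ThinSequences
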